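import Pool.Agent.H30.FA.TC
import Pool.Agent.H48.FL.Coc

/-!
# MP_6a7a6f_gt, row CHG: change of all factors by an exact cochain
-/

set_option autoImplicit false

namespace Pool.Agent.H40.FA

open Pool.Agent.H30.FA Pool.Agent.H58.FL
open Pool.Agent.H59 (LL bdL mapL)

noncomputable section

lemma PL_congr {X : Type} (A B : List (X → X → X → ℝ)) (g h : X → X → X → ℝ) (x : ℕ → X)
    (hgh : ∀ i j l, g (x i) (x j) (x l) = h (x i) (x j) (x l)) :
    PL (A ++ g :: B) x = PL (A ++ h :: B) x := by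
  induction A generalizing x with
  | nil =>
    show g (x 0) (x 1) (x 2) * PL B (sh 2 x) = h (x 0) (x 1) (x 2) * PL B (sh 2 x)
    rw [hgh]
  | cons f A ih =>
    show f (x 0) (x 1) (x 2) * PL (A ++ g :: B) (sh 2 x) =
      f (x 0) (x 1) (x 2) * PL (A ++ h :: B) (sh 2 x)
    rw [ih (sh 2 x) fun i j l => hgh _ _ _]

/-- Change of one factor. -/
lemma change (hZA : T_ZA) (hEVL : T_EVL) {X : Type} {K : Set (Set X)} (hK : Down K)
    {g g' : X → X → X → ℝ} {θ : X → X → ℝ}
    (h : ∀ S ∈ K, ∀ x ∈ S, ∀ y ∈ S, ∀ z ∈ S, g x y z - g' x y z = d1 θ x y z) (n : ℕ)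
    (A B : List (X → X → X → ℝ)) (hn : A.length + 1 + B.length = n)
    (hA : ∀ f ∈ A, Cl2 K f) (hB : ∀ f ∈ B, Cl2 K f) (z : LL (2 * n + 1) X) (hz : On K z)
    (hb : bdL (2 * n) X z = 0) :
    ev (2 * n) (PL (A ++ g :: B)) z = ev (2 * n) (PL (A ++ g' :: B)) z := by
  have h1 : ev (2 * n) (PL (A ++ g :: B)) z =
      ev (2 * n) (PL (A ++ (fun a b c => g' a b c + 1 * d1 θ a b c) :: B)) z := by
    refine (hEVL X (2 * n)).2.2.2.2.1 _ _ z fun t ht => ?_
    refine PL_congr A B g _ (ex t) fun i j l => ?_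
    have h2 := h _ (hz t ht) (ex t i) ⟨_, rfl⟩ (ex t j) ⟨_, rfl⟩ (ex t l) ⟨_, rfl⟩
    show g _ _ _ = g' _ _ _ + 1 * d1 θ _ _ _
    linarith
  rw [h1, Pool.Agent.H48.FL.ev_lin hEVL, hZA X K hK n A B θ hn hA hB z hz hb, mul_zero, add_zero]

/-- Row CHG. -/
theorem pf_CHG (hZA : T_ZA) (hEVL : T_EVL) (hLOW : T_LOW) : T_CHG := by
  intro X K hK g g' θ hg hg' h n z hz hb
  have key : ∀ j, j ≤ n → ev (2 * n) (PL (List.replicate n g)) z =
      ev (2 * n) (PL (List.replicate j g' ++ List.replicate (n - j) g)) z := by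
    intro j
    induction j with
    | zero =>
      intro _
      rw [List.replicate_zero, List.nil_append, Nat.sub_zero]
    | succ j ih =>
      intro hj
      rw [ih (by omega)]
      obtain ⟨r, hr⟩ : ∃ r, n - j = r + 1 := ⟨n - j - 1, by omega⟩
      have hr' : n - (j + 1) = r := by omega
      rw [hr, hr', List.replicate_succ]
      rw [change hZA hEVL hK h n _ _ (by
        rw [List.length_replicate, List.length_replicate]
        omega) (fun f hf => by
        rw [List.eq_of_mem_replicate hf]; exact hg') (fun f hf => by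
        rw [List.eq_of_mem_replicate hf]; exact hg) z hz hb]
      rw [List.replicate_succ', List.append_assoc, List.singleton_append]
  have := key n le_rfl
  rwa [Nat.sub_self, List.replicate_zero, List.append_nil] at this

end

end Pool.Agent.H40.FA
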